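import Pool.Agent.Helper10.Fam.Stmts

set_option autoImplicit false

namespace Pool.Agent.Helper10.Fam

open Pool.Agent.Helper10.Lor
open scoped BigOperators

theorem low_inBall (d : ℕ) (b : Ball) : ∀ L : List Vr, inBall d b L = true →
    ∀ v ∈ L, dn b.v v.v * dn b.v v.v * d ≤ b.B * b.B * v.nu := by
  intro L
  induction L with
  | nil => intro _ v hv; simp at hv
  | cons x L ih =>
    intro h v hv
    simp only [inBall, Bool.and_eq_true] at h
    rcases List.mem_cons.1 hv with rfl | hv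
    · exact Nat.le_of_ble_eq_true h.1
    · exact ih h.2 v hv

theorem low_sum_nonneg (c : ℕ) (x : ℕ → ℝ) (W : List (List ℕ)) :
    0 ≤ (W.map fun w => pp c (dx w x) / (dx w x) ^ 2).sum := by
  apply List.sum_nonneg
  intro r hr
  obtain ⟨w, _, rfl⟩ := List.mem_map.1 hr
  unfold pp
  positivity

theorem low_term_le (c : ℕ) (x : ℕ → ℝ) (W : List (List ℕ)) (w : List ℕ) (hw : w ∈ W) :
    pp c (dx w x) / (dx w x) ^ 2 ≤ (W.map fun w => pp c (dx w x) / (dx w x) ^ 2).sum := by
  apply List.single_le_sum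
  · intro r hr
    obtain ⟨w, _, rfl⟩ := List.mem_map.1 hr
    unfold pp
    positivity
  · exact List.mem_map.2 ⟨w, hw, rfl⟩

theorem low_nu (hA : ST_LSTA) (hC : ST_LSTC) (D : Dat) (v : Vr) (h : vOK D v = true) :
    (v.nu : ℝ) = bl D.H (fn v.v) (fn v.v) := by
  simp only [vOK, Bool.and_eq_true] at h
  have h2 := Nat.eq_of_beq_eq_true h.2
  rw [h2, hA.dn_comm, hA.dn_eq, hC.mv_fn]

theorem low_gen (hA : ST_LSTA) (hC : ST_LSTC) (D : Dat) (hd : 0 < D.d) (b : Ball) (v : Vr)
    (h : vOK D v = true) (hb : dn b.v v.v * dn b.v v.v * D.d ≤ b.B * b.B * v.nu) :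
    dx b.v (fn v.v) ≤ b.B * Real.sqrt (bl D.H (fn v.v) (fn v.v) / D.d) := by
  have hd' : (0 : ℝ) < D.d := by exact_mod_cast hd
  have h1 : ((dn b.v v.v : ℕ) : ℝ) * ((dn b.v v.v : ℕ) : ℝ) * D.d ≤ b.B * b.B * v.nu := by
    exact_mod_cast hb
  rw [← hA.dn_eq, ← low_nu hA hC D v h]
  have h3 : (0 : ℝ) ≤ (v.nu : ℝ) / D.d := by positivity
  have h4 : ((dn b.v v.v : ℕ) : ℝ) ^ 2 ≤ (b.B * Real.sqrt ((v.nu : ℝ) / D.d)) ^ 2 := by
    rw [mul_pow, Real.sq_sqrt h3]
    rw [← mul_div_assoc, le_div_iff₀ hd']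
    nlinarith
  exact le_of_sq_le_sq h4 (by positivity)

theorem st_LOW (hA : ST_LSTA) (hB : ST_LSTB) (hC : ST_LSTC) (hT : ST_TREE) (hI : ST_INIT)
    (hG : ST_GET) (hCo : ST_CONE) (hTa : ST_TANG) (hTs : ST_TSUM) : ST_LOW := by
  intro D C hd h1 h2 h3 x hx hpos
  simp only [lowTab, Bool.and_eq_true] at h1
  obtain ⟨⟨⟨⟨h1a, h1b⟩, h1c⟩, h1d⟩, h1e⟩ := h1
  have hW : ∀ w ∈ D.W, w.length = D.n + 2 := by
    intro w hw
    exact Nat.eq_of_beq_eq_true (List.all_eq_true.1 h1d w hw)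
  have hw0 : D.w0 ∈ D.W := (hB.memL _ _).1 h1e
  have hd' : (0 : ℝ) < D.d := by exact_mod_cast hd
  have hcone : InCone C.L0 x := hI (D.n + 2) C.L0 h1c x hx.nn hx.zero
  refine hT ℕ (fun v => vOK D v = true) C.T (leafLow D.d C.Bs) C.tr C.L0
    (fun y => y = x → (C.m0 : ℝ) / 1000000 ≤
      (D.W.map fun w => pp D.c (dx w x) / (dx w x) ^ 2).sum) ?_ ?_ ?_ h3 x hcone rfl
  · intro k v hv
    exact hG Vr (vOK D) C.T h1a k v hv
  · intro v hv
    exact List.all_eq_true.1 h1b v hv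
  · intro k L' hL' hleaf y hy hyx
    subst hyx
    unfold leafLow at hleaf
    cases hb : C.Bs.get k with
    | none => rw [hb] at hleaf; simp at hleaf
    | some b =>
      rw [hb] at hleaf
      simp only at hleaf
      have hbk := hG Ball (ballOK D C.m0) C.Bs h2 k b hb
      have hgen : ∀ v ∈ L', dx b.v (fn v.v)
          ≤ b.B * Real.sqrt (bl D.H (fn v.v) (fn v.v) / D.d) := by
        intro v hv
        exact low_gen hA hC D hd b v (hL' v hv) (low_inBall D.d b L' hleaf v hv)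
      have hball := hCo D y hd hx L' y hy b.v b.B (Nat.cast_nonneg _) hgen
      rw [hx.nrm, div_self hd'.ne', mul_one] at hball
      rw [div_le_iff₀ (by norm_num : (0 : ℝ) < 1000000)]
      unfold ballOK at hbk
      cases hX : b.X with
      | nil =>
        rw [hX] at hbk
        simp only [Bool.and_eq_true] at hbk
        have e1 := hB.smulEq _ _ _ hbk.1 y
        have e2 := Nat.eq_of_beq_eq_true hbk.2
        have e3 := hTa D.c b.a (dx D.w0 y) (hpos _ hw0)
        rw [e2, ← e1] at e3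
        have e4 := low_term_le D.c y D.W D.w0 hw0
        push_cast at e3
        nlinarith
      | cons a t =>
        rw [hX] at hbk
        simp only [Bool.and_eq_true] at hbk
        obtain ⟨⟨k1, k2⟩, k3⟩ := hbk
        have e0 := Nat.eq_of_beq_eq_true k1
        have e1 := (hB.beqL _ _).1 k2
        have e2 := Nat.eq_of_beq_eq_true k3
        have e3 := (hTs D.c (a :: t) D.W y (fun w hw => by rw [hW w hw, e0]) hpos).2
        rw [e2, ← e1] at e3
        push_cast at e3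
        nlinarith

end Pool.Agent.Helper10.Fam
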